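import Pool.Agent.C4N.Stm

/-!
# C4N, module ITE: `J` rounds
-/

set_option autoImplicit false

open scoped Classical

noncomputable section

namespace Pool.Agent.C4N.H37

open Pool.Agent.C4N Filter

/-- the state is monotone in `A` -/
theorem St.mono {V : Type} [Fintype V] {R : SimpleGraph V} {K C L : ℕ} {c A A' Q : ℝ}
    (hA : A ≤ A') (h : St V R K C L c A Q) : St V R K C L c A' Q where
  c4 := h.c4
  lo := h.lo
  hi := h.hi
  sp := h.sp
  ct := by
    intro a x y h1 h2 h3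
    refine (h.ct a x y h1 h2 h3).trans ?_
    exact mul_le_mul_of_nonneg_right hA (le_trans zero_le_one (le_max_left _ _))

theorem dg_bot {V : Type} (v : V) : dg (⊥ : SimpleGraph V) v = 0 := by
  rw [dg]
  have : (⊥ : SimpleGraph V).neighborSet v = ∅ := by
    ext w
    simp
  rw [this, Set.ncard_empty]

/-- a power with positive exponent becomes large -/
theorem ev_ge (a : ℝ) (ha : 0 < a) (B : ℝ) : ∃ k0 : ℕ, ∀ k : ℕ, k0 ≤ k → B ≤ (k : ℝ) ^ a := by
  have h1 : Tendsto (fun k : ℕ => (k : ℝ) ^ a) atTop atTop :=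
    (tendsto_rpow_atTop ha).comp tendsto_natCast_atTop_atTop
  obtain ⟨k0, hk0⟩ := (h1.eventually_ge_atTop B).exists_forall_of_atTop
  exact ⟨k0, hk0⟩

theorem ite_ (rou : ROUStmt) (st0 : ST0Stmt) : ITEStmt := by
  intro J
  induction J with
  | zero =>
    intro L
    refine ⟨0, 1 / 1000, by norm_num, le_rfl, ?_⟩
    intro δ hδ
    obtain ⟨k1, hk1⟩ := ev_ge δ hδ (2 ^ L)
    refine ⟨max 2 k1, ?_⟩
    intro k hk V _ R hR hdeg
    have hk2 : 2 ≤ k := (le_max_left _ _).trans hk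
    have hkk1 : k1 ≤ k := (le_max_right _ _).trans hk
    refine ⟨0, fun i => i.elim0, R, Nat.zero_le k, fun i => i.elim0, le_rfl, ?_, ?_, ?_, ?_⟩
    · rw [iSup_of_empty, sup_bot_eq]
    · rw [pow_zero, Real.rpow_one, Nat.sub_zero]
    · rw [pow_zero, Real.rpow_one, Nat.sub_zero]
    · rw [Nat.sub_zero]
      exact St.mono (hk1 k hkk1) (st0 L k hk2 V R hR hdeg)
  | succ J ih =>
    intro L
    obtain ⟨C, c, hc0, hc1, hI⟩ := ih L
    obtain ⟨C', c', hc'0, hc'1, hR⟩ := rou C L c hc0 hc1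
    refine ⟨C', c', hc'0, hc'1, ?_⟩
    intro δ hδ
    set δ₁ : ℝ := δ / (2 * ((L : ℝ) * L + 1)) with hδ₁
    have hLL : (0 : ℝ) < 2 * ((L : ℝ) * L + 1) := by positivity
    have hδ₁0 : 0 < δ₁ := div_pos hδ hLL
    obtain ⟨k1, hk1⟩ := hI δ₁ hδ₁0
    obtain ⟨K0, hK0⟩ := hR (δ / 2) (by positivity)
    have haJ : (0 : ℝ) < (1 - 1 / 9000 : ℝ) ^ J := by positivity
    obtain ⟨k2, hk2⟩ := ev_ge ((1 - 1 / 9000 : ℝ) ^ J) haJ K0
    refine ⟨max 1 (max k1 k2), ?_⟩
    intro k hk V _ R hC4 hdeg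
    have hk1' : 1 ≤ k := (le_max_left _ _).trans hk
    have hkk1 : k1 ≤ k := (le_max_left _ _).trans ((le_max_right _ _).trans hk)
    have hkk2 : k2 ≤ k := (le_max_right _ _).trans ((le_max_right _ _).trans hk)
    have hkR : (1 : ℝ) ≤ k := by exact_mod_cast hk1'
    have hk0 : (0 : ℝ) ≤ k := by linarith
    obtain ⟨n, F, R', hn, hF, hR'R, hsup, hlo, hhi, hst⟩ := hk1 k hkk1 V R hC4 hdeg
    have hK : K0 ≤ k - n := by
      have h1 := (hk2 k hkk2).trans hlo
      exact_mod_cast h1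
    have hA1 : (1 : ℝ) ≤ (k : ℝ) ^ δ₁ := Real.one_le_rpow hkR hδ₁0.le
    have hQ1 : (1 : ℝ) ≤ (k : ℝ) ^ 2 := one_le_pow₀ hkR
    obtain ⟨n₁, F₁, R'', hn₁, hF₁, hR''R', hsup₁, hlo₁, hhi₁, hst₁, -⟩ :=
      hK0 (k - n) hK ((k : ℝ) ^ δ₁) ((k : ℝ) ^ 2) hA1 hQ1 V R' ⊥ hst bot_le (fun v => by
        rw [dg_bot, Nat.cast_zero]
        positivity)
    have hKle : ((k - n : ℕ) : ℝ) ≤ k := by
      exact_mod_cast Nat.sub_le k n
    have hsub : k - (n + n₁) = k - n - n₁ := by omega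
    refine ⟨n + n₁, Fin.append F F₁, R'', by omega, ?_, hR''R'.trans hR'R, ?_, ?_, ?_, ?_⟩
    · intro i
      refine Fin.addCases (fun j => ?_) (fun j => ?_) i
      · rw [Fin.append_left]
        exact hF j
      · rw [Fin.append_right]
        exact hF₁ j
    · have h1 : (⨆ i, Fin.append F F₁ i) = (⨆ i, F i) ⊔ ⨆ i, F₁ i := by
        apply le_antisymm
        · apply iSup_le
          intro i
          refine Fin.addCases (fun j => ?_) (fun j => ?_) i
          · rw [Fin.append_left]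
            exact (le_iSup F j).trans le_sup_left
          · rw [Fin.append_right]
            exact (le_iSup F₁ j).trans le_sup_right
        · apply sup_le
          · apply iSup_le
            intro j
            have := le_iSup (Fin.append F F₁) (Fin.castAdd n₁ j)
            rwa [Fin.append_left] at this
          · apply iSup_le
            intro j
            have := le_iSup (Fin.append F F₁) (Fin.natAdd n j)
            rwa [Fin.append_right] at this
      rw [h1, ← hsup, ← hsup₁]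
      rw [sup_comm (⨆ i, F i), ← sup_assoc]
    · rw [hsub, pow_succ, Real.rpow_mul hk0]
      exact (Real.rpow_le_rpow (Real.rpow_nonneg hk0 _) hlo (by norm_num)).trans hlo₁
    · rw [hsub, pow_succ, Real.rpow_mul hk0]
      exact hhi₁.trans (Real.rpow_le_rpow (Nat.cast_nonneg _) hhi (by norm_num))
    · rw [hsub]
      refine St.mono ?_ hst₁
      have h1 : ((k - n : ℕ) : ℝ) ^ (δ / 2) ≤ (k : ℝ) ^ (δ / 2) :=
        Real.rpow_le_rpow (Nat.cast_nonneg _) hKle (by positivity)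
      have h2 : ((k : ℝ) ^ δ₁) ^ (L * L) = (k : ℝ) ^ (δ₁ * ((L * L : ℕ) : ℝ)) := by
        rw [Real.rpow_mul hk0, Real.rpow_natCast]
      have h3 : δ₁ * ((L * L : ℕ) : ℝ) ≤ δ / 2 := by
        rw [hδ₁, div_mul_eq_mul_div, div_le_iff₀ hLL]
        push_cast
        nlinarith [hδ, mul_nonneg (Nat.cast_nonneg (α := ℝ) L) (Nat.cast_nonneg (α := ℝ) L)]
      have h4 : ((k : ℝ) ^ δ₁) ^ (L * L) ≤ (k : ℝ) ^ (δ / 2) := by
        rw [h2]
        exact Real.rpow_le_rpow_of_exponent_le hkR h3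
      calc ((k - n : ℕ) : ℝ) ^ (δ / 2) * ((k : ℝ) ^ δ₁) ^ (L * L)
          ≤ (k : ℝ) ^ (δ / 2) * (k : ℝ) ^ (δ / 2) :=
            mul_le_mul h1 h4 (by positivity) (by positivity)
        _ = (k : ℝ) ^ δ := by
            rw [← Real.rpow_add (by linarith)]
            congr 1
            ring

end Pool.Agent.C4N.H37
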