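import Pool.Agent.C4N.Stm

/-!
# C4N, module LFO: an acyclic partial injection is a linear forest, with its degrees

The acyclicity part follows `Helper3_LAX/Lfo.lean`.
-/

set_option autoImplicit false

open scoped Classical

noncomputable section

namespace Pool.Agent.C4N.H37

open Pool.Agent.C4N

theorem it_of_transGen {V : Type} (f : V → Option V) {u v : V}
    (h : Relation.TransGen (fun a b => f a = some b) u v) : ∃ j, 1 ≤ j ∧ C4K.it f j u = some v := by
  induction h using Relation.TransGen.head_induction_on with
  | single h =>
    refine ⟨1, le_rfl, ?_⟩
    simp [C4K.it, h]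
  | head h _ ih =>
    obtain ⟨j, hj, hj2⟩ := ih
    refine ⟨j + 1, by omega, ?_⟩
    rw [C4K.it, h]
    exact hj2

theorem lfo : LFOStmt := by
  intro V _ f hPI hanti hcyc
  let F : SimpleGraph V :=
    { Adj := fun x y => f x = some y ∨ f y = some x
      symm := ⟨fun x y h => h.symm⟩
      loopless := ⟨fun x h => by
        rcases h with h | h <;> exact hanti x x h h⟩ }
  have hadj : ∀ x y, F.Adj x y ↔ f x = some y ∨ f y = some x := fun x y => Iff.rfl
  let rk : V → ℕ := fun v => ({w | Relation.TransGen (fun a b => f a = some b) w v} : Set V).ncard
  have hrk : ∀ u v, f u = some v → rk u < rk v := by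
    intro u v huv
    refine Set.ncard_lt_ncard ⟨fun w hw => ?_, fun hsub => ?_⟩ (Set.toFinite _)
    · exact Relation.TransGen.tail hw huv
    · obtain ⟨j, hj, hj2⟩ := it_of_transGen f (hsub (Relation.TransGen.single huv))
      exact hcyc u j hj hj2
  refine ⟨F, hadj, ⟨?_, ?_⟩, ?_⟩
  · intro v c hc
    obtain ⟨w, hw, hmax⟩ := Finset.exists_max_image c.support.toFinset rk ⟨v, by simp⟩
    rw [List.mem_toFinset] at hw
    have hmax' : ∀ x ∈ c.support, rk x ≤ rk w := fun x hx => hmax x (List.mem_toFinset.2 hx)
    have hc' := hc.rotate hw
    set c' := c.rotate w hw with hc'def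
    have hnil : ¬ c'.Nil := hc'.not_nil
    have hsup : ∀ x ∈ c'.support, x ∈ c.support := by
      intro x hx
      exact (SimpleGraph.Walk.mem_support_rotate_iff c w hw).1 hx
    have hin : ∀ x, F.Adj w x → x ∈ c'.support → f x = some w := by
      intro x hx hxs
      rcases hx with h | h
      · have h1 := hrk w x h
        have h2 := hmax' x (hsup x hxs)
        omega
      · exact h
    have h1 := hin _ (c'.adj_snd hnil) (c'.getVert_mem_support _)
    have h2 := hin _ (c'.adj_penultimate hnil).symm (c'.getVert_mem_support _)
    exact hc'.snd_ne_penultimate (hPI _ _ _ h1 h2)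
  · intro v
    have hsub : F.neighborSet v ⊆ {w | f v = some w} ∪ {w | f w = some v} := by
      intro w hw
      exact hw
    have h1 : ({w | f v = some w} : Set V).ncard ≤ 1 := by
      rw [Set.ncard_le_one (Set.toFinite _)]
      intro a ha b hb
      have ha' : f v = some a := ha
      have hb' : f v = some b := hb
      rw [ha'] at hb'
      exact Option.some.inj hb'
    have h2 : ({w | f w = some v} : Set V).ncard ≤ 1 := by
      rw [Set.ncard_le_one (Set.toFinite _)]
      intro a ha b hb
      exact hPI a b v ha hb
    calc (F.neighborSet v).ncard
        ≤ ({w | f v = some w} ∪ {w | f w = some v} : Set V).ncard :=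
          Set.ncard_le_ncard hsub (Set.toFinite _)
      _ ≤ ({w | f v = some w} : Set V).ncard + ({w | f w = some v} : Set V).ncard :=
          Set.ncard_union_le _ _
      _ ≤ 2 := by omega
  · intro v
    have e0 : F.neighborSet v = {w | f v = some w} ∪ {w | f w = some v} := by
      ext w
      exact Iff.rfl
    have e1 : Disjoint ({w | f v = some w} : Set V) {w | f w = some v} := by
      rw [Set.disjoint_left]
      intro w h1 h2
      exact hanti v w h1 h2
    have e2 : dg F v = ({w | f v = some w} : Set V).ncard + ({w | f w = some v} : Set V).ncard := by
      rw [dg, e0, Set.ncard_union_eq e1 (Set.toFinite _) (Set.toFinite _)]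
    have e3 : ({w | f v = some w} : Set V).ncard + (if f v = none then 1 else 0) = 1 := by
      by_cases h : f v = none
      · rw [if_pos h]
        have : ({w | f v = some w} : Set V) = ∅ := by
          rw [Set.eq_empty_iff_forall_notMem]
          intro w hw
          have hw' : f v = some w := hw
          rw [h] at hw'
          exact absurd hw' (by simp)
        rw [this, Set.ncard_empty]
      · rw [if_neg h]
        obtain ⟨w, hw⟩ := Option.ne_none_iff_exists'.1 h
        have : ({w | f v = some w} : Set V) = {w} := by
          ext x
          constructor
          · intro hx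
            have hx' : f v = some x := hx
            rw [hw] at hx'
            exact (Option.some.inj hx').symm
          · rintro rfl
            exact hw
        rw [this, Set.ncard_singleton]
    have e4 : ({w | f w = some v} : Set V).ncard + (if ∀ x, f x ≠ some v then 1 else 0) = 1 := by
      by_cases h : ∀ x, f x ≠ some v
      · rw [if_pos h]
        have : ({w | f w = some v} : Set V) = ∅ := by
          rw [Set.eq_empty_iff_forall_notMem]
          intro w hw
          exact h w hw
        rw [this, Set.ncard_empty]
      · rw [if_neg h]
        push Not at h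
        obtain ⟨w, hw⟩ := h
        have : ({w | f w = some v} : Set V) = {w} := by
          ext x
          constructor
          · intro hx
            exact hPI x w v hx hw
          · rintro rfl
            exact hw
        rw [this, Set.ncard_singleton]
    omega

end Pool.Agent.C4N.H37
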