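import Pool.Agent.C4N.Stm

/-!
# C4N, module VIZ: a graph of maximum degree `D` is a union of `2 D` matchings (greedy)
-/

set_option autoImplicit false

open scoped Classical

noncomputable section

namespace Pool.Agent.C4N.H37

open Pool.Agent.C4N Finset

/-- greedy colouring of the edges -/
theorem greedy {V : Type} [Fintype V] (G : SimpleGraph V) (D : ℕ) (hD : ∀ v, dg G v ≤ D)
    (S : Finset (Sym2 V)) : (∀ e ∈ S, e ∈ G.edgeSet) → ∃ c : Sym2 V → ℕ, (∀ e ∈ S, c e < 2 * D) ∧
      ∀ e ∈ S, ∀ e' ∈ S, e ≠ e' → (∃ v, v ∈ e ∧ v ∈ e') → c e ≠ c e' := by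
  induction S using Finset.induction_on with
  | empty =>
    intro _
    exact ⟨fun _ => 0, fun e he => absurd he (Finset.notMem_empty e),
      fun e he => absurd he (Finset.notMem_empty e)⟩
  | insert e S he ih =>
    intro hS
    obtain ⟨c, hc1, hc2⟩ := ih (fun e' he' => hS e' (Finset.mem_insert_of_mem he'))
    have heG := hS e (Finset.mem_insert_self e S)
    induction e using Sym2.ind with
    | _ x y =>
      have hxy : G.Adj x y := heG
      -- edges at one end
      have hend : ∀ a b : V, s(a, b) = s(x, y) → G.Adj a b →
          (S.filter (fun e' => a ∈ e')).card + 1 ≤ D := by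
        intro a b hab hadj
        set N : Finset V := univ.filter (fun w => G.Adj a w) with hN
        have hNc : N.card = dg G a := by
          rw [dg, Set.ncard_eq_toFinset_card']
          congr 1
          ext w
          simp [hN]
        have hbN : b ∈ N := by
          rw [hN, Finset.mem_filter]
          exact ⟨Finset.mem_univ b, hadj⟩
        have hsub : S.filter (fun e' => a ∈ e') ⊆ (N.erase b).image (fun w => s(a, w)) := by
          intro e' he'
          rw [Finset.mem_filter] at he'
          obtain ⟨w, rfl⟩ := Sym2.mem_iff_exists.1 he'.2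
          rw [Finset.mem_image]
          refine ⟨w, ?_, rfl⟩
          rw [Finset.mem_erase, hN, Finset.mem_filter]
          refine ⟨?_, Finset.mem_univ w, hS _ (Finset.mem_insert_of_mem he'.1)⟩
          rintro rfl
          apply he
          rw [← hab]
          exact he'.1
        have h1 := (Finset.card_le_card hsub).trans Finset.card_image_le
        rw [Finset.card_erase_of_mem hbN, hNc] at h1
        have h2 : 0 < N.card := Finset.card_pos.2 ⟨b, hbN⟩
        rw [hNc] at h2
        have h3 := hD a
        omega
      set T := S.filter (fun e' => ∃ v, v ∈ s(x, y) ∧ v ∈ e') with hT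
      have hTc : T.card < 2 * D := by
        have h1 : T ⊆ S.filter (fun e' => x ∈ e') ∪ S.filter (fun e' => y ∈ e') := by
          intro e' he'
          rw [hT, Finset.mem_filter] at he'
          obtain ⟨h2, v, hv, hv'⟩ := he'
          rw [Sym2.mem_iff] at hv
          rw [Finset.mem_union, Finset.mem_filter, Finset.mem_filter]
          rcases hv with rfl | rfl
          · exact Or.inl ⟨h2, hv'⟩
          · exact Or.inr ⟨h2, hv'⟩
        have h2 := (Finset.card_le_card h1).trans (Finset.card_union_le _ _)
        have h3 := hend x y rfl hxy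
        have h4 := hend y x Sym2.eq_swap hxy.symm
        omega
      obtain ⟨t, ht1, ht2⟩ : ∃ t, t ∈ Finset.range (2 * D) ∧ t ∉ T.image c := by
        by_contra hno
        push Not at hno
        have h1 : Finset.range (2 * D) ⊆ T.image c := fun t ht => hno t ht
        have h2 := (Finset.card_le_card h1).trans Finset.card_image_le
        rw [Finset.card_range] at h2
        omega
      rw [Finset.mem_range] at ht1
      have hne : ∀ e' ∈ S, e' ≠ s(x, y) := by
        rintro e' he' rfl
        exact he he'
      have htT : ∀ e' ∈ S, (∃ v, v ∈ s(x, y) ∧ v ∈ e') → t ≠ c e' := by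
        rintro e' he' hv rfl
        apply ht2
        exact Finset.mem_image_of_mem c (Finset.mem_filter.2 ⟨he', hv⟩)
      refine ⟨Function.update c s(x, y) t, ?_, ?_⟩
      · intro e' he'
        rw [Finset.mem_insert] at he'
        rcases he' with rfl | he'
        · rw [Function.update_self]
          exact ht1
        · rw [Function.update_of_ne (hne e' he')]
          exact hc1 e' he'
      · intro e₁ h1 e₂ h2 h12 hv
        rw [Finset.mem_insert] at h1 h2
        rcases h1 with rfl | h1
        · rcases h2 with rfl | h2
          · exact absurd rfl h12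
          · rw [Function.update_self, Function.update_of_ne (hne e₂ h2)]
            exact htT e₂ h2 hv
        · rcases h2 with rfl | h2
          · rw [Function.update_self, Function.update_of_ne (hne e₁ h1)]
            obtain ⟨v, hv1, hv2⟩ := hv
            exact (htT e₁ h1 ⟨v, hv2, hv1⟩).symm
          · rw [Function.update_of_ne (hne e₁ h1), Function.update_of_ne (hne e₂ h2)]
            exact hc2 e₁ h1 e₂ h2 h12 hv

theorem viz : VIZStmt := by
  intro V _ G D hD
  obtain ⟨c, hc1, hc2⟩ := greedy G D hD (univ.filter (fun e => e ∈ G.edgeSet))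
    (fun e he => (Finset.mem_filter.1 he).2)
  have hmem : ∀ a b, G.Adj a b → s(a, b) ∈ univ.filter (fun e => e ∈ G.edgeSet) := by
    intro a b h
    rw [Finset.mem_filter]
    exact ⟨Finset.mem_univ _, h⟩
  let F : Fin (2 * D) → SimpleGraph V := fun i =>
    { Adj := fun a b => G.Adj a b ∧ c s(a, b) = i.1
      symm := ⟨fun a b h => ⟨h.1.symm, by
        rw [Sym2.eq_swap]
        exact h.2⟩⟩
      loopless := ⟨fun a h => h.1.ne rfl⟩ }
  have huniq : ∀ i a b b', (F i).Adj a b → (F i).Adj a b' → b = b' := by
    intro i a b b' h1 h2
    by_contra hne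
    apply hc2 _ (hmem a b h1.1) _ (hmem a b' h2.1)
    · intro h
      rw [Sym2.eq_iff] at h
      rcases h with ⟨-, h⟩ | ⟨h, h'⟩
      · exact hne h
      · apply hne
        rw [h', h]
    · exact ⟨a, Sym2.mem_mk_left a b, Sym2.mem_mk_left a b'⟩
    · rw [h1.2, h2.2]
  refine ⟨F, ?_, ?_⟩
  · intro i
    constructor
    · intro v w hw
      have hnil : ¬ w.Nil := hw.not_nil
      exact hw.snd_ne_penultimate (huniq i _ _ _ (w.adj_snd hnil) (w.adj_penultimate hnil).symm)
    · intro v
      have h1 : ((F i).neighborSet v).ncard ≤ 1 := by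
        rw [Set.ncard_le_one (Set.toFinite _)]
        intro a ha b hb
        exact huniq i v a b ha hb
      omega
  · ext a b
    rw [SimpleGraph.iSup_adj]
    constructor
    · rintro ⟨i, hi⟩
      exact hi.1
    · intro h
      exact ⟨⟨c s(a, b), hc1 _ (hmem a b h)⟩, h, rfl⟩

end Pool.Agent.C4N.H37
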