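import Pool.Agent.Helper37_C4N.SmpNum

/-!
# C4N, module SMP, part D2: from good coins to the input of the base
-/

set_option autoImplicit false

open scoped BigOperators Classical

noncomputable section

namespace Pool.Agent.C4N.H37

open Pool.Agent.C4N Finset Filter
open Pool.Agent.C4W (outN inN NReg)

section orient

variable {V : Type} [Fintype V] {R : SimpleGraph V} {O : V → V → Prop}

theorem od_eq_ncard (O : V → V → Prop) (x : V) : od O x = {w | O x w}.ncard := by
  rw [od, Set.ncard_eq_toFinset_card']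
  congr 1
  ext w
  simp

theorem dg_eq (hO : Ori R O) (x : V) : dg R x = od O x + od (fun u v => O v u) x := by
  rw [od_eq_ncard, od_eq_ncard, dg]
  have h1 : R.neighborSet x = {w | O x w} ∪ {w | O w x} := by
    ext w
    exact hO.adj x w
  have h2 : Disjoint ({w | O x w} : Set V) {w | O w x} := by
    rw [Set.disjoint_left]
    intro w h3 h4
    exact hO.asy x w h3 h4
  rw [h1, Set.ncard_union_eq h2 (Set.toFinite _) (Set.toFinite _)]

/-- in- and out-degrees of a balanced orientation -/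
theorem od_bounds (hO : Ori R O) {K C : ℕ} (x : V) (lo : 2 * K ≤ dg R x)
    (hi : dg R x ≤ 2 * K + C) :
    (K ≤ od O x ∧ od O x ≤ K + C) ∧ (K ≤ od (fun u v => O v u) x ∧
      od (fun u v => O v u) x ≤ K + C) ∧
      (dg R x = 2 * K → od O x = K ∧ od (fun u v => O v u) x = K) := by
  have h1 := dg_eq hO x
  have h2 := hO.bal x
  rw [← od_eq_ncard O x] at h2
  have h3 : {w | O w x}.ncard = od (fun u v => O v u) x := (od_eq_ncard (fun u v => O v u) x).symm
  rw [h3] at h2
  omega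

end orient

theorem mem_outN {V : Type} [Fintype V] (A : Set (V × V)) (x y : V) :
    y ∈ outN A x ↔ (x, y) ∈ A := by
  rw [outN, Finset.mem_filter]
  exact ⟨fun h => h.2, fun h => ⟨Finset.mem_univ _, h⟩⟩

theorem mem_inN {V : Type} [Fintype V] (A : Set (V × V)) (x y : V) :
    y ∈ inN A x ↔ (y, x) ∈ A := by
  rw [inN, Finset.mem_filter]
  exact ⟨fun h => h.2, fun h => ⟨Finset.mem_univ _, h⟩⟩

section counts

variable {V : Type} [Fintype V] {K s : ℕ}

theorem card_outN (O : V → V → Prop) (ω : Sym2 V → Fin K) (g : Fin 40) (x : V) :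
    ((outN (Og O s ω g) x).card : ℝ) = cP O (Tg K s g) ω x := by
  rw [cP, outN]
  congr 2
  ext y
  rw [Finset.mem_filter, Finset.mem_filter]
  exact Iff.rfl

theorem card_inN (O : V → V → Prop) (ω : Sym2 V → Fin K) (g : Fin 40) (x : V) :
    ((inN (Og O s ω g) x).card : ℝ) = cP (fun u v => O v u) (Tg K s g) ω x := by
  rw [cP, inN]
  congr 2
  ext y
  rw [Finset.mem_filter, Finset.mem_filter]
  have : s(x, y) = s(y, x) := Sym2.eq_swap
  rw [this]
  exact Iff.rfl

/-- number of forced out-arcs -/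
theorem forced (O : V → V → Prop) (ω : Sym2 V → Fin K) (x : V) :
    ((univ.filter fun y => O x y ∧ typ K s (ω s(x, y)) = none).card : ℝ) +
      ∑ g : Fin 40, cP O (Tg K s g) ω x = od O x := by
  have h1 : (od O x : ℕ) = ∑ b : Option (Fin 40),
      ((univ.filter fun y => O x y).filter fun y => typ K s (ω s(x, y)) = b).card :=
    Finset.card_eq_sum_card_fiberwise (t := Finset.univ) (fun y _ => Finset.mem_coe.2
      (Finset.mem_univ _))
  rw [h1, Fintype.sum_option]
  push_cast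
  congr 1
  · rw [Finset.filter_filter]
  · apply Finset.sum_congr rfl
    intro g _
    rw [cP, Finset.filter_filter]
    congr 2
    ext y
    rw [Finset.mem_filter, Finset.mem_filter]
    exact Iff.rfl

/-- the sum of `h` without the part of the group -/
theorem hP_sub (O : V → V → Prop) (ω : Sym2 V → Fin K) (g : Fin 40) (h1 : ℝ) (x : V) :
    hP O (hg K s g h1) ω x - h1 * cP O (Tg K s g) ω x =
      if g = 0 then ((univ.filter fun y => O x y ∧ typ K s (ω s(x, y)) = none).card : ℝ)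
      else 0 := by
  have h2 : ∀ t : Fin K, hg K s g h1 t = (if Tg K s g t then h1 else 0) +
      (if typ K s t = none then (if g = 0 then (1 : ℝ) else 0) else 0) := by
    intro t
    unfold hg Tg
    by_cases ha : typ K s t = some g
    · simp [ha]
    · by_cases hb : typ K s t = none
      · by_cases hg0 : g = 0
        · simp [hb, hg0]
        · simp [hb, hg0]
      · simp [ha, hb]
  rw [hP, Finset.sum_congr rfl (fun y _ => h2 (ω s(x, y))), Finset.sum_add_distrib,
    ← Finset.sum_filter, ← Finset.sum_filter, Finset.sum_const, Finset.sum_const,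
    Finset.filter_filter, Finset.filter_filter, nsmul_eq_mul, nsmul_eq_mul, cP]
  split_ifs with hg0
  · ring
  · ring

end counts

theorem rpow_le_of_le {x a b : ℝ} (hx : 1 ≤ x) (h : a ≤ b) : x ^ a ≤ x ^ b :=
  Real.rpow_le_rpow_of_exponent_le hx h

/-- the numerical inequalities -/
theorem numerics (C : ℕ) (c : ℝ) (hc : 0 < c) (hc1 : c ≤ 1 / 1000) : ∃ K0 : ℕ, ∀ K k : ℕ,
    K0 ≤ K → k = K + C →
    (C : ℝ) + 40 * (k : ℝ) ^ (0.51 : ℝ) ≤ (k : ℝ) ^ (0.52 : ℝ) ∧
    3 * (K : ℝ) ^ (-c) ≤ 1 ∧ 3 * (K : ℝ) ^ (-c) ≤ (K : ℝ) ^ (-(c / 2)) ∧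
    (k : ℝ) ^ (-0.3 : ℝ) + 100 * C * (3 * (K : ℝ) ^ (-c)) ≤ (k : ℝ) ^ (-(2 * (c / 3))) := by
  obtain ⟨k1, hk1⟩ := ev_large 0.01 (by norm_num) (40 + C)
  obtain ⟨k2, hk2⟩ := ev_large (c / 2) (by positivity) 3
  obtain ⟨k3, hk3⟩ := ev_large 0.2 (by norm_num) 2
  obtain ⟨k4, hk4⟩ := ev_large (c / 3) (by positivity) (1200 * C)
  refine ⟨max (max 1 C) (max (max k1 k2) (max k3 k4)), fun K k hK hkK => ?_⟩
  have hK1 : 1 ≤ K := (le_max_left _ _).trans ((le_max_left _ _).trans hK)
  have hKC : C ≤ K := (le_max_right _ _).trans ((le_max_left _ _).trans hK)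
  have hKk1 : k1 ≤ K := (le_max_left _ _).trans ((le_max_left _ _).trans
    ((le_max_right _ _).trans hK))
  have hKk2 : k2 ≤ K := (le_max_right _ _).trans ((le_max_left _ _).trans
    ((le_max_right _ _).trans hK))
  have hKk3 : k3 ≤ K := (le_max_left _ _).trans ((le_max_right _ _).trans
    ((le_max_right _ _).trans hK))
  have hKk4 : k4 ≤ K := (le_max_right _ _).trans ((le_max_right _ _).trans
    ((le_max_right _ _).trans hK))
  have hk : K ≤ k := by omega
  have hKR : (1 : ℝ) ≤ K := by exact_mod_cast hK1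
  have hkR : (1 : ℝ) ≤ k := by exact_mod_cast hK1.trans hk
  have hk0 : (0 : ℝ) < k := by linarith
  have hK0 : (0 : ℝ) < K := by linarith
  have hC0 : (0 : ℝ) ≤ C := Nat.cast_nonneg C
  have e1 := hk1 k (hKk1.trans hk)
  have e2 := hk2 K hKk2
  have e3 := hk3 k (hKk3.trans hk)
  have e4 := hk4 k (hKk4.trans hk)
  refine ⟨?_, ?_, ?_, ?_⟩
  · have h1 : (k : ℝ) ^ (0.52 : ℝ) = (k : ℝ) ^ (0.51 : ℝ) * (k : ℝ) ^ (0.01 : ℝ) := by
      rw [← Real.rpow_add hk0]
      norm_num
    have h2 : (1 : ℝ) ≤ (k : ℝ) ^ (0.51 : ℝ) := Real.one_le_rpow hkR (by norm_num)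
    rw [h1]
    nlinarith [mul_le_mul_of_nonneg_left e1 (by linarith : (0 : ℝ) ≤ (k : ℝ) ^ (0.51 : ℝ))]
  · have h1 : (3 : ℝ) ≤ (K : ℝ) ^ c := e2.trans (rpow_le_of_le hKR (by linarith))
    rw [Real.rpow_neg hK0.le, ← div_eq_mul_inv, div_le_one (by positivity)]
    exact h1
  · have h1 : (K : ℝ) ^ (-(c / 2)) = (K : ℝ) ^ (-c) * (K : ℝ) ^ (c / 2) := by
      rw [← Real.rpow_add hK0]
      congr 1
      ring
    rw [h1, mul_comm]
    exact mul_le_mul_of_nonneg_left e2 (by positivity)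
  · set z : ℝ := (k : ℝ) ^ (-(2 * (c / 3))) with hz
    have hz0 : 0 < z := Real.rpow_pos_of_pos hk0 _
    have h1 : (k : ℝ) ^ (-0.3 : ℝ) ≤ z / 2 := by
      have h2 : (k : ℝ) ^ (-0.3 : ℝ) * (k : ℝ) ^ (0.2 : ℝ) ≤ z := by
        rw [← Real.rpow_add hk0, hz]
        apply rpow_le_of_le hkR
        linarith
      have h3 : (k : ℝ) ^ (-0.3 : ℝ) * 2 ≤ (k : ℝ) ^ (-0.3 : ℝ) * (k : ℝ) ^ (0.2 : ℝ) :=
        mul_le_mul_of_nonneg_left e3 (by positivity)
      linarith
    have h4 : (K : ℝ) ^ (-c) ≤ 2 * (k : ℝ) ^ (-c) := by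
      have h5 : (k : ℝ) ≤ 2 * K := by
        have : k ≤ 2 * K := by omega
        exact_mod_cast this
      have h6 : (k : ℝ) ^ c ≤ 2 * (K : ℝ) ^ c := by
        calc (k : ℝ) ^ c ≤ (2 * (K : ℝ)) ^ c := Real.rpow_le_rpow hk0.le h5 hc.le
          _ = 2 ^ c * (K : ℝ) ^ c := Real.mul_rpow (by norm_num) hK0.le
          _ ≤ 2 * (K : ℝ) ^ c := by
              apply mul_le_mul_of_nonneg_right _ (by positivity)
              have : (2 : ℝ) ^ c ≤ 2 ^ (1 : ℝ) := rpow_le_of_le (by norm_num) (by linarith)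
              rwa [Real.rpow_one] at this
      rw [Real.rpow_neg hK0.le, Real.rpow_neg hk0.le, ← div_eq_mul_inv, inv_eq_one_div,
        div_le_div_iff₀ (by positivity) (by positivity), one_mul]
      exact h6
    have h7 : 600 * C * (k : ℝ) ^ (-c) ≤ z / 2 := by
      have h8 : (k : ℝ) ^ (-c) * (k : ℝ) ^ (c / 3) = z := by
        rw [← Real.rpow_add hk0, hz]
        congr 1
        ring
      have h9 : (k : ℝ) ^ (-c) * (1200 * C) ≤ (k : ℝ) ^ (-c) * (k : ℝ) ^ (c / 3) :=
        mul_le_mul_of_nonneg_left e4 (by positivity)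
      rw [h8] at h9
      linarith
    have h10 : 100 * C * (3 * (K : ℝ) ^ (-c)) ≤ 600 * C * (k : ℝ) ^ (-c) := by
      have := mul_le_mul_of_nonneg_left h4 (by positivity : (0 : ℝ) ≤ 300 * C)
      linarith
    linarith

theorem smpDet (bet : BETStmt) : SmpDetStmt := by
  intro C L c hc hc1
  obtain ⟨K1, hK1⟩ := sizes C
  obtain ⟨K2, hK2⟩ := numerics C c hc hc1
  obtain ⟨k3, hk3⟩ := bet
  refine ⟨max (max K1 K2) k3, fun K M k s hK hp m h1 N hnum A Q δ C1 V _ R E O hst hO ω hω => ?_⟩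
  obtain ⟨hK1', h40, hs9999, hs99, hsk, hKk, hk1, hM, hs20, hM1⟩ := hK1 K M k s
    ((le_max_left _ _).trans ((le_max_left _ _).trans hK)) hp
  obtain ⟨n1, n2, n3, n4⟩ := hK2 K k ((le_max_right _ _).trans ((le_max_left _ _).trans hK)) hp.hk
  have hkk3 : k3 ≤ k := ((le_max_right _ _).trans hK).trans hKk
  have hk0 : (0 : ℝ) < k := by linarith
  have hs0 : (0 : ℝ) < s := by linarith
  have hKR : (1 : ℝ) ≤ K := by exact_mod_cast hK1'
  have hod : ∀ x, (K ≤ od O x ∧ od O x ≤ K + C) ∧ (K ≤ od (fun u v => O v u) x ∧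
      od (fun u v => O v u) x ≤ K + C) ∧
      (dg R x = 2 * K → od O x = K ∧ od (fun u v => O v u) x = K) :=
    fun x => od_bounds hO x (hst.lo x) (hst.hi x)
  have h51 : (k : ℝ) ^ (0.51 : ℝ) ≤ (s : ℝ) ^ (0.6 : ℝ) := by
    calc (k : ℝ) ^ (0.51 : ℝ) ≤ (k : ℝ) ^ ((0.99 : ℝ) * 0.6) := rpow_le_of_le hk1 (by norm_num)
      _ = ((k : ℝ) ^ (0.99 : ℝ)) ^ (0.6 : ℝ) := Real.rpow_mul hk0.le _ _
      _ ≤ (s : ℝ) ^ (0.6 : ℝ) := Real.rpow_le_rpow (by positivity) hs99 (by norm_num)
  have h51' : (k : ℝ) ^ (0.51 : ℝ) ≤ s * (k : ℝ) ^ (-0.4 : ℝ) := by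
    calc (k : ℝ) ^ (0.51 : ℝ) ≤ (k : ℝ) ^ ((0.99 : ℝ) + (-0.4)) :=
          rpow_le_of_le hk1 (by norm_num)
      _ = (k : ℝ) ^ (0.99 : ℝ) * (k : ℝ) ^ (-0.4 : ℝ) := Real.rpow_add hk0 _ _
      _ ≤ s * (k : ℝ) ^ (-0.4 : ℝ) := mul_le_mul_of_nonneg_right hs99 (by positivity)
  -- the weights of a group
  have hB : ∀ g : Fin 40, ∃ β : V → V → ℝ, (∀ x y, 3 / 10 ≤ β x y ∧ β x y ≤ 7 / 10) ∧
      (∀ x, |(∑ y ∈ outN (Og O s ω g) x, β x y) +
        (if g = 0 then ((univ.filter fun y => O x y ∧ typ K s (ω s(x, y)) = none).card : ℝ)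
          else 0) - N g| ≤ (k : ℝ) ^ (-(2 * (c / 3)))) ∧
      ∀ y, |(∑ x ∈ inN (Og O s ω g) y, β x y) +
        (if g = 0 then ((univ.filter fun x => O x y ∧ typ K s (ω s(y, x)) = none).card : ℝ)
          else 0) - N g| ≤ (k : ℝ) ^ (-(2 * (c / 3))) := by
    intro g
    have h1l := hnum.lo g
    have h1u := hnum.hi g
    have hK0 : (0 : ℝ) < K := by linarith
    obtain ⟨β, hβ1, hβ2, hβ3⟩ := hk3 k K s C hkk3 hKk hK1' hs99 hsk V O (fun x => (hod x).1)
      (fun x => (hod x).2.1) (Tg K s g) (hg K s g (h1 g)) (N g) (h1 g) (3 * (K : ℝ) ^ (-c))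
      (by
        intro t
        unfold hg
        split_ifs
        · constructor <;> linarith
        · constructor <;> norm_num
        · constructor <;> norm_num)
      (by
        intro t ht
        have ht' : typ K s t = some g := ht
        unfold hg
        rw [if_pos ht'])
      h1l h1u (by positivity) n2 ω
      (fun x => ⟨(hω.cp g x).1.trans h51, (hω.cp g x).2.trans h51⟩)
      (fun x => hω.hp g x)
      (fun x => hω.fr g x)
      (by
        intro y
        constructor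
        · refine le_trans ?_ ((hω.sp g y).2.trans (le_of_eq (by ring)))
          refine Nat.cast_le.2 (Finset.card_le_card ?_)
          intro x hx
          rw [Finset.mem_filter] at hx ⊢
          refine ⟨Finset.mem_univ _, ⟨hx.2.1, hx.2.2.1⟩, fun h => hx.2.2.2 ((hod x).2.2 h).1⟩
        · refine le_trans ?_ ((hω.sp g y).1.trans (le_of_eq (by ring)))
          refine Nat.cast_le.2 (Finset.card_le_card ?_)
          intro x hx
          rw [Finset.mem_filter] at hx ⊢
          refine ⟨Finset.mem_univ _, ⟨hx.2.1, hx.2.2.1⟩, fun h => hx.2.2.2 ((hod x).2.2 h).2⟩)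
    refine ⟨β, hβ1, ?_, ?_⟩
    · intro x
      have h2 := (hβ2 x).trans n4
      rw [hP_sub] at h2
      have h3 : ∑ y ∈ univ.filter (fun y => O x y ∧ Tg K s g (ω s(x, y))), β x y =
          ∑ y ∈ outN (Og O s ω g) x, β x y := by
        apply Finset.sum_congr _ (fun _ _ => rfl)
        ext y
        rw [outN, Finset.mem_filter, Finset.mem_filter]
        exact Iff.rfl
      rw [h3] at h2
      exact h2
    · intro y
      have h2 := (hβ3 y).trans n4
      rw [hP_sub] at h2
      have h3 : ∑ x ∈ univ.filter (fun x => O x y ∧ Tg K s g (ω s(x, y))), β x y =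
          ∑ x ∈ inN (Og O s ω g) y, β x y := by
        apply Finset.sum_congr _ (fun _ _ => rfl)
        ext x
        rw [inN, Finset.mem_filter, Finset.mem_filter]
        exact Iff.rfl
      rw [h3] at h2
      exact h2
  choose β hβ1 hβ2 hβ3 using hB
  -- the forced arcs
  have hfo : ∀ x, (outN (Rf O s ω) x) = univ.filter fun y => O x y ∧ typ K s (ω s(x, y)) = none := by
    intro x
    ext y
    rw [outN, Finset.mem_filter, Finset.mem_filter]
    exact Iff.rfl
  have hfi : ∀ x, (inN (Rf O s ω) x) = univ.filter fun y => O y x ∧ typ K s (ω s(x, y)) = none := by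
    intro x
    ext y
    rw [inN, Finset.mem_filter, Finset.mem_filter]
    have : s(x, y) = s(y, x) := Sym2.eq_swap
    rw [this]
    exact Iff.rfl
  have hr : ∀ O' : V → V → Prop, (∀ x, K ≤ od O' x ∧ od O' x ≤ K + C) →
      (∀ g x, |cP O' (Tg K s g) ω x - s| ≤ (k : ℝ) ^ (0.51 : ℝ)) → ∀ x,
      |((univ.filter fun y => O' x y ∧ typ K s (ω s(x, y)) = none).card : ℝ) -
        ((K : ℝ) - 40 * s)| ≤ (k : ℝ) ^ (0.52 : ℝ) := by
    intro O' hO' hc' x
    refine le_trans ?_ n1
    have h2 := forced (s := s) O' ω x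
    have h3 : ((univ.filter fun y => O' x y ∧ typ K s (ω s(x, y)) = none).card : ℝ) -
        ((K : ℝ) - 40 * s) = ((od O' x : ℝ) - K) - ∑ g : Fin 40, (cP O' (Tg K s g) ω x - s) := by
      rw [Finset.sum_sub_distrib, Finset.sum_const, Finset.card_univ, Fintype.card_fin,
        nsmul_eq_mul, ← h2]
      push_cast
      ring
    rw [h3]
    have h4 : |(od O' x : ℝ) - K| ≤ C := by
      have h5 : (K : ℝ) ≤ od O' x := by exact_mod_cast (hO' x).1
      have h6 : (od O' x : ℝ) ≤ K + C := by exact_mod_cast (hO' x).2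
      rw [abs_le]
      constructor <;> linarith
    have h7 : |∑ g : Fin 40, (cP O' (Tg K s g) ω x - s)| ≤ 40 * (k : ℝ) ^ (0.51 : ℝ) := by
      refine (Finset.abs_sum_le_sum_abs _ _).trans ?_
      refine (Finset.sum_le_sum (fun g _ => hc' g x)).trans (le_of_eq ?_)
      rw [Finset.sum_const, Finset.card_univ, Fintype.card_fin, nsmul_eq_mul]
      norm_num
    exact (abs_sub _ _).trans (add_le_add h4 h7)
  refine ⟨β, ?_, ?_⟩
  · constructor
    · exact hst.c4
    · intro x
      have := hst.hi x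
      rw [hp.hk]
      omega
    · rintro p (h | ⟨g, h⟩)
      · exact (hO.adj _ _).2 (Or.inl h.1)
      · exact (hO.adj _ _).2 (Or.inl h.1)
    · rintro p h h'
      have h2 : O p.1 p.2 := by
        rcases h with h | ⟨g, h⟩ <;> exact h.1
      have h3 : O p.2 p.1 := by
        rcases h' with h | ⟨g, h⟩ <;> exact h.1
      exact hO.asy _ _ h2 h3
    · intro x
      have h2 : (outN (Rf O s ω ∪ ⋃ g, Og O s ω g) x).card ≤ od O x := by
        apply Finset.card_le_card
        intro y hy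
        rw [mem_outN] at hy
        rw [Finset.mem_filter]
        refine ⟨Finset.mem_univ _, ?_⟩
        rcases hy with h | h
        · exact h.1
        · obtain ⟨g, hg'⟩ := Set.mem_iUnion.1 h
          exact hg'.1
      have h3 : (inN (Rf O s ω ∪ ⋃ g, Og O s ω g) x).card ≤ od (fun u v => O v u) x := by
        apply Finset.card_le_card
        intro y hy
        rw [mem_inN] at hy
        rw [Finset.mem_filter]
        refine ⟨Finset.mem_univ _, ?_⟩
        rcases hy with h | h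
        · exact h.1
        · obtain ⟨g, hg'⟩ := Set.mem_iUnion.1 h
          exact hg'.1
      have h4 := hod x
      rw [hp.hk]
      omega
    · intro g
      rw [Set.disjoint_left]
      intro p h2 h3
      have h4 : typ K s (ω s(p.1, p.2)) = none := h2.2
      have h5 : typ K s (ω s(p.1, p.2)) = some g := h3.2
      rw [h4] at h5
      exact absurd h5 (by simp)
    · intro g g' hgg
      rw [Set.disjoint_left]
      intro p h2 h3
      have h4 : typ K s (ω s(p.1, p.2)) = some g := h2.2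
      have h5 : typ K s (ω s(p.1, p.2)) = some g' := h3.2
      rw [h4] at h5
      exact hgg (Option.some.inj h5)
    · intro g x
      rw [card_outN, card_inN]
      exact ⟨(hω.cp g x).1.trans h51', (hω.cp g x).2.trans h51'⟩
    · exact hβ1
    · intro x
      rw [hfo, hfi]
      exact ⟨hr O (fun x => (hod x).1) (fun g x => (hω.cp g x).1) x,
        hr (fun u v => O v u) (fun x => (hod x).2.1) (fun g x => (hω.cp g x).2) x⟩
    · intro x
      have h2 := hβ2 0 x
      rw [if_pos rfl, hnum.n0] at h2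
      rw [hfo, add_comm ((univ.filter fun y => O x y ∧ typ K s (ω s(x, y)) = none).card : ℝ)]
      exact h2
    · intro y
      have h2 := hβ3 0 y
      rw [if_pos rfl, hnum.n0] at h2
      rw [hfi, add_comm ((univ.filter fun x => O x y ∧ typ K s (ω s(y, x)) = none).card : ℝ)]
      exact h2
    · intro g hg0 x
      have h2 := hβ2 g x
      rw [if_neg hg0, hnum.ng g hg0] at h2
      have h3 : ((K : ℝ) - 40 * s) / (M : ℝ) ^ (g : ℕ) + ∑ y ∈ outN (Og O s ω g) x, β g x y -
          (M * (m g : ℝ) - (k : ℝ) ^ (-(c / 3))) = (∑ y ∈ outN (Og O s ω g) x, β g x y) + 0 -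
          (M * (m g : ℝ) - (k : ℝ) ^ (-(c / 3)) - ((K : ℝ) - 40 * s) / (M : ℝ) ^ (g : ℕ)) := by
        ring
      rw [h3]
      exact h2
    · intro g hg0 y
      have h2 := hβ3 g y
      rw [if_neg hg0, hnum.ng g hg0] at h2
      have h3 : ((K : ℝ) - 40 * s) / (M : ℝ) ^ (g : ℕ) + ∑ x ∈ inN (Og O s ω g) y, β g x y -
          (M * (m g : ℝ) - (k : ℝ) ^ (-(c / 3))) = (∑ x ∈ inN (Og O s ω g) y, β g x y) + 0 -
          (M * (m g : ℝ) - (k : ℝ) ^ (-(c / 3)) - ((K : ℝ) - 40 * s) / (M : ℝ) ^ (g : ℕ)) := by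
        ring
      rw [h3]
      exact h2
  · intro g x
    have h2 : 3 * s * (K : ℝ) ^ (-c) ≤ s * (K : ℝ) ^ (-(c / 2)) := by
      have := mul_le_mul_of_nonneg_left n3 hs0.le
      linarith
    exact ⟨(hω.sp g x).1.trans h2, (hω.sp g x).2.trans h2⟩

end Pool.Agent.C4N.H37
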