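import Pool.Agent.C4N.Stm

/-!
# C4N, module SMP: interface between the probabilistic part (helper46) and the deterministic part
(helper37)
-/

set_option autoImplicit false

open scoped BigOperators Classical

noncomputable section

namespace Pool.Agent.C4N.H37

open Pool.Agent.C4N Finset

/-- the coins of the group `g` -/
def Tg (K s : ℕ) (g : Fin 40) (t : Fin K) : Prop := typ K s t = some g

/-- the function `h` of the group `g` -/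
def hg (K s : ℕ) (g : Fin 40) (h1 : ℝ) (t : Fin K) : ℝ :=
  if typ K s t = some g then h1 else if g = 0 ∧ typ K s t = none then 1 else 0

/-- the numbers of the groups (`c` is the parameter of the base) -/
structure Num (c : ℝ) (K k s M : ℕ) (m : Fin 40 → ℕ) (h1 N : Fin 40 → ℝ) : Prop where
  lo : ∀ g, 9 / 20 ≤ h1 g
  hi : ∀ g, h1 g ≤ 11 / 20
  n0 : N 0 = M * (m 0 : ℝ) - (k : ℝ) ^ (-c)
  ng : ∀ g : Fin 40, g ≠ 0 →
    N g = M * (m g : ℝ) - (k : ℝ) ^ (-c) - ((K : ℝ) - 40 * s) / (M : ℝ) ^ (g : ℕ)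
  sum : ∀ g, ∑ t : Fin K, hg K s g (h1 g) t = N g
  cardT : ∀ g : Fin 40, (univ.filter fun t : Fin K => Tg K s g t).card = s

/-- the good coins (`c` is the parameter of the round, that of the base is `c / 3`) -/
structure Good {V : Type} [Fintype V] (c δ A Q : ℝ) (K k s L C1 : ℕ) (R E : SimpleGraph V)
    (O : V → V → Prop) (h1 N : Fin 40 → ℝ) (ω : Sym2 V → Fin K) : Prop where
  cp : ∀ g x, |cP O (Tg K s g) ω x - s| ≤ (k : ℝ) ^ (0.51 : ℝ) ∧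
    |cP (fun u v => O v u) (Tg K s g) ω x - s| ≤ (k : ℝ) ^ (0.51 : ℝ)
  hp : ∀ g x, |N g - hP O (hg K s g (h1 g)) ω x| ≤ (s : ℝ) ^ (0.6 : ℝ) ∧
    |N g - hP (fun u v => O v u) (hg K s g (h1 g)) ω x| ≤ (s : ℝ) ^ (0.6 : ℝ)
  fr : ∀ g x, |Fr O (Tg K s g) (hg K s g (h1 g)) s (N g) (h1 g) ω x| ≤ (k : ℝ) ^ (-0.45 : ℝ) ∧
    |Fr (fun u v => O v u) (Tg K s g) (hg K s g (h1 g)) s (N g) (h1 g) ω x| ≤
      (k : ℝ) ^ (-0.45 : ℝ)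
  sp : ∀ g x, ((univ.filter fun y => (x, y) ∈ Og O s ω g ∧ dg R y ≠ 2 * K).card : ℝ) ≤
      3 * s * (K : ℝ) ^ (-c) ∧
    ((univ.filter fun y => (y, x) ∈ Og O s ω g ∧ dg R y ≠ 2 * K).card : ℝ) ≤
      3 * s * (K : ℝ) ^ (-c)
  ct : Cnt (w1 R s ω) L ((K : ℝ) ^ δ * A ^ L) (41 * s) Q
  ex : ∀ x, ({y | R.Adj x y ∧ ∃ z, E.Adj y z ∧ typ K s (ω s(y, z)) ≠ none}.ncard : ℝ) ≤
    (K : ℝ) ^ (1 - 1 / 50000 : ℝ)
  ed : ∀ x, {y | E.Adj x y ∧ typ K s (ω s(x, y)) ≠ none}.ncard ≤ C1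

/-- D1 (helper37): the numbers -/
def SmpNumStmt : Prop := ∀ (C : ℕ) (c : ℝ), 0 < c → c ≤ 1 / 1000 → ∃ K0 : ℕ, ∀ K M k s : ℕ,
  K0 ≤ K → Prm K C M k s → ∃ (m : Fin 40 → ℕ) (h1 N : Fin 40 → ℝ), Num (c / 3) K k s M m h1 N

/-- D2 (helper37): from good coins to the input of the base -/
def SmpDetStmt : Prop := ∀ (C L : ℕ) (c : ℝ), 0 < c → c ≤ 1 / 1000 → ∃ K0 : ℕ, ∀ K M k s : ℕ,
  K0 ≤ K → Prm K C M k s → ∀ (m : Fin 40 → ℕ) (h1 N : Fin 40 → ℝ), Num (c / 3) K k s M m h1 N →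
  ∀ (A Q δ : ℝ) (C1 : ℕ) (V : Type) [Fintype V] (R E : SimpleGraph V) (O : V → V → Prop),
  St V R K C L c A Q → Ori R O → ∀ ω : Sym2 V → Fin K, Good c δ A Q K k s L C1 R E O h1 N ω →
  ∃ β : Fin 40 → V → V → ℝ,
    BI V k s M (c / 3) ((K : ℝ) - 40 * s) R (Rf O s ω) (Og O s ω) β m ∧
    (∀ g x, ((univ.filter fun y => (x, y) ∈ Og O s ω g ∧ dg R y ≠ 2 * K).card : ℝ) ≤
        s * (K : ℝ) ^ (-(c / 2)) ∧
      ((univ.filter fun y => (y, x) ∈ Og O s ω g ∧ dg R y ≠ 2 * K).card : ℝ) ≤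
        s * (K : ℝ) ^ (-(c / 2)))

/-- P (helper46): good coins exist -/
def SmpProbStmt : Prop := ∀ (C L : ℕ) (c : ℝ), 0 < c → c ≤ 1 / 1000 → ∃ C1 : ℕ, ∀ δ : ℝ, 0 < δ →
  ∃ K0 : ℕ, ∀ K M k s : ℕ, K0 ≤ K → Prm K C M k s →
  ∀ (m : Fin 40 → ℕ) (h1 N : Fin 40 → ℝ), Num (c / 3) K k s M m h1 N →
  ∀ A Q : ℝ, 1 ≤ A → 1 ≤ Q →
  ∀ (V : Type) [Fintype V] (R E : SimpleGraph V) (O : V → V → Prop), St V R K C L c A Q →
  E ≤ R → (∀ v, (dg E v : ℝ) ≤ (K : ℝ) ^ (1 / 50000 : ℝ)) → Ori R O →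
  ∃ ω : Sym2 V → Fin K, Good c δ A Q K k s L C1 R E O h1 N ω

/-- the assembly of SMP -/
theorem smp_of (num : SmpNumStmt) (det : SmpDetStmt) (prob : SmpProbStmt) : SMPStmt := by
  intro C L c hc hc1
  obtain ⟨C1, hC1⟩ := prob C L c hc hc1
  refine ⟨C1, fun δ hδ => ?_⟩
  obtain ⟨K1, hK1⟩ := num C c hc hc1
  obtain ⟨K2, hK2⟩ := det C L c hc hc1
  obtain ⟨K3, hK3⟩ := hC1 δ hδ
  refine ⟨max K1 (max K2 K3), fun K M k s hK hprm A Q hA hQ V _ R E O hst hER hE hO => ?_⟩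
  have k1 : K1 ≤ K := (le_max_left _ _).trans hK
  have k2 : K2 ≤ K := (le_max_left _ _).trans ((le_max_right _ _).trans hK)
  have k3 : K3 ≤ K := (le_max_right _ _).trans ((le_max_right _ _).trans hK)
  obtain ⟨m, h1, N, hnum⟩ := hK1 K M k s k1 hprm
  obtain ⟨ω, hω⟩ := hK3 K M k s k3 hprm m h1 N hnum A Q hA hQ V R E O hst hER hE hO
  obtain ⟨β, hβ1, hβ2⟩ := hK2 K M k s k2 hprm m h1 N hnum A Q δ C1 V R E O hst hO ω hω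
  exact ⟨ω, β, m, hβ1, hβ2, hω.ct, hω.ex, hω.ed⟩

end Pool.Agent.C4N.H37
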