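import Pool.Agent.Helper37_C4N.SmpItf

/-!
# C4N, module SMP, part D1: the numbers
-/

set_option autoImplicit false

open scoped BigOperators Classical

noncomputable section

namespace Pool.Agent.C4N.H37

open Pool.Agent.C4N Finset Filter

theorem ev_large (a : ℝ) (ha : 0 < a) (B : ℝ) : ∃ k0 : ℕ, ∀ k : ℕ, k0 ≤ k → B ≤ (k : ℝ) ^ a := by
  have h1 : Tendsto (fun k : ℕ => (k : ℝ) ^ a) atTop atTop :=
    (tendsto_rpow_atTop ha).comp tendsto_natCast_atTop_atTop
  obtain ⟨k0, hk0⟩ := (h1.eventually_ge_atTop B).exists_forall_of_atTop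
  exact ⟨k0, hk0⟩

/-- size of the parameters -/
theorem sizes (C : ℕ) : ∃ K0 : ℕ, ∀ K M k s : ℕ, K0 ≤ K → Prm K C M k s →
    1 ≤ K ∧ 40 * s ≤ K ∧ (k : ℝ) ^ (0.9999 : ℝ) ≤ s ∧ (k : ℝ) ^ (0.99 : ℝ) ≤ s ∧ s ≤ k ∧ K ≤ k ∧
      (1 : ℝ) ≤ (k : ℝ) ∧ 20 * ((M : ℝ) + 1) ≤ s ∧ 20 ≤ (s : ℝ) ∧ 1 ≤ M := by
  obtain ⟨k1, hk1⟩ := ev_large 0.0001 (by norm_num) (81 + C)
  obtain ⟨k2, hk2⟩ := ev_large 0.4599 (by norm_num) 40
  refine ⟨max 1 (max k1 k2), fun K M k s hK hp => ?_⟩
  have hK1 : 1 ≤ K := (le_max_left _ _).trans hK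
  have hk : K ≤ k := by rw [hp.hk]; omega
  have hkk1 : k1 ≤ k := ((le_max_left _ _).trans ((le_max_right _ _).trans hK)).trans hk
  have hkk2 : k2 ≤ k := ((le_max_right _ _).trans ((le_max_right _ _).trans hK)).trans hk
  have hk1R : (1 : ℝ) ≤ (k : ℝ) := by exact_mod_cast hK1.trans hk
  have hk0 : (0 : ℝ) < k := by linarith
  have e1 := hk1 k hkk1
  have e2 := hk2 k hkk2
  set x : ℝ := (k : ℝ) ^ (0.9999 : ℝ) with hx
  have hx1 : 1 ≤ x := Real.one_le_rpow hk1R (by norm_num)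
  have hs1 : x ≤ s := by
    have := Nat.le_ceil ((k : ℝ) ^ (1 - 1 / 10000 : ℝ))
    rw [hp.hs, ss]
    refine le_trans (le_of_eq ?_) this
    rw [hx]
    norm_num
  have hs2 : (s : ℝ) ≤ x + 1 := by
    have := (Nat.ceil_lt_add_one (a := (k : ℝ) ^ (1 - 1 / 10000 : ℝ)) (by positivity)).le
    rw [hp.hs, ss]
    refine this.trans (le_of_eq ?_)
    rw [hx]
    norm_num
  have hkx : (k : ℝ) = x * (k : ℝ) ^ (0.0001 : ℝ) := by
    rw [hx, ← Real.rpow_add hk0]
    norm_num
  have h3 : x * (81 + C) ≤ k := by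
    rw [hkx]
    exact mul_le_mul_of_nonneg_left e1 (by linarith)
  have hkK : (k : ℝ) = K + C := by
    rw [hp.hk]
    push_cast
    ring
  have hC0 : (0 : ℝ) ≤ C := Nat.cast_nonneg C
  have h40 : (40 : ℝ) * s ≤ K := by
    nlinarith
  have h99 : (k : ℝ) ^ (0.99 : ℝ) ≤ s :=
    (Real.rpow_le_rpow_of_exponent_le hk1R (by norm_num)).trans hs1
  have hsk : (s : ℝ) ≤ k := by
    have : (0 : ℝ) ≤ s := Nat.cast_nonneg s
    linarith
  set y : ℝ := (k : ℝ) ^ (0.54 : ℝ) with hy
  have hy1 : 1 ≤ y := Real.one_le_rpow hk1R (by norm_num)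
  have hxy : x = y * (k : ℝ) ^ (0.4599 : ℝ) := by
    rw [hx, hy, ← Real.rpow_add hk0]
    norm_num
  have h4 : y * 40 ≤ x := by
    rw [hxy]
    exact mul_le_mul_of_nonneg_left e2 (by linarith)
  have hM := hp.Mhi
  have h5 : 20 * ((M : ℝ) + 1) ≤ s := by linarith
  have hM0 : (0 : ℝ) ≤ M := Nat.cast_nonneg M
  refine ⟨hK1, by exact_mod_cast h40, hs1, h99, by exact_mod_cast hsk, hk, hk1R, h5, by linarith,
    hp.pr.one_lt.le⟩

section types

variable {K s : ℕ}

theorem typ_some (hs : 0 < s) (t : Fin K) (g : Fin 40) :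
    typ K s t = some g ↔ g.1 * s ≤ t.1 ∧ t.1 < (g.1 + 1) * s := by
  unfold typ
  have h1 : t.1 / s = g.1 ↔ g.1 * s ≤ t.1 ∧ t.1 < (g.1 + 1) * s := by
    rw [← Nat.le_div_iff_mul_le hs, ← Nat.div_lt_iff_lt_mul hs]
    omega
  split_ifs with h
  · rw [Option.some.injEq, Fin.ext_iff]
    exact h1
  · constructor
    · intro h2
      exact absurd h2 (by simp)
    · intro h2
      exact absurd ((h1.2 h2) ▸ g.2) h

theorem typ_none (hs : 0 < s) (t : Fin K) : typ K s t = none ↔ 40 * s ≤ t.1 := by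
  unfold typ
  split_ifs with h
  · constructor
    · intro h2
      exact absurd h2 (by simp)
    · intro h2
      rw [Nat.div_lt_iff_lt_mul hs] at h
      omega
  · constructor
    · intro _
      rw [not_lt, Nat.le_div_iff_mul_le hs] at h
      exact h
    · intro _
      rfl

theorem card_some (hs : 0 < s) (h40 : 40 * s ≤ K) (g : Fin 40) :
    (univ.filter fun t : Fin K => typ K s t = some g).card = s := by
  have h1 : ((univ.filter fun t : Fin K => typ K s t = some g).map Fin.valEmbedding) =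
      Finset.Ico (g.1 * s) ((g.1 + 1) * s) := by
    ext a
    rw [Finset.mem_map, Finset.mem_Ico]
    constructor
    · rintro ⟨t, ht, rfl⟩
      rw [Finset.mem_filter] at ht
      exact (typ_some hs t g).1 ht.2
    · intro ha
      have hg : (g.1 + 1) * s ≤ 40 * s := Nat.mul_le_mul_right s (by have := g.2; omega)
      refine ⟨⟨a, by omega⟩, ?_, rfl⟩
      rw [Finset.mem_filter]
      exact ⟨Finset.mem_univ _, (typ_some hs _ g).2 ha⟩
  have h2 := congrArg Finset.card h1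
  rw [Finset.card_map, Nat.card_Ico] at h2
  rw [h2]
  have : (g.1 + 1) * s = g.1 * s + s := by ring
  omega

theorem card_none (hs : 0 < s) :
    (univ.filter fun t : Fin K => typ K s t = none).card = K - 40 * s := by
  have h1 : ((univ.filter fun t : Fin K => typ K s t = none).map Fin.valEmbedding) =
      Finset.Ico (40 * s) K := by
    ext a
    rw [Finset.mem_map, Finset.mem_Ico]
    constructor
    · rintro ⟨t, ht, rfl⟩
      rw [Finset.mem_filter] at ht
      exact ⟨(typ_none hs t).1 ht.2, t.2⟩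
    · intro ha
      refine ⟨⟨a, ha.2⟩, ?_, rfl⟩
      rw [Finset.mem_filter]
      exact ⟨Finset.mem_univ _, (typ_none hs _).2 ha.1⟩
  have h2 := congrArg Finset.card h1
  rw [Finset.card_map, Nat.card_Ico] at h2
  exact h2

theorem sum_hg (hs : 0 < s) (h40 : 40 * s ≤ K) (g : Fin 40) (h1 : ℝ) :
    ∑ t : Fin K, hg K s g h1 t = h1 * s + if g = 0 then ((K : ℝ) - 40 * s) else 0 := by
  have h2 : ∀ t : Fin K, hg K s g h1 t = (if typ K s t = some g then h1 else 0) +
      (if typ K s t = none then (if g = 0 then 1 else 0) else 0) := by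
    intro t
    unfold hg
    by_cases ha : typ K s t = some g
    · have hb : ¬ typ K s t = none := by
        rw [ha]
        simp
      simp [ha]
    · by_cases hb : typ K s t = none
      · by_cases hg0 : g = 0
        · simp [hb, hg0]
        · simp [hb, hg0]
      · simp [ha, hb]
  rw [Finset.sum_congr rfl (fun t _ => h2 t), Finset.sum_add_distrib, ← Finset.sum_filter,
    ← Finset.sum_filter, Finset.sum_const, Finset.sum_const, card_some hs h40, card_none hs,
    nsmul_eq_mul, nsmul_eq_mul]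
  have h3 : ((K - 40 * s : ℕ) : ℝ) = (K : ℝ) - 40 * s := by
    rw [Nat.cast_sub h40]
    push_cast
    ring
  rw [h3]
  split_ifs <;> ring

end types

theorem smpNum : SmpNumStmt := by
  intro C c hc hc1
  obtain ⟨K0, hK0⟩ := sizes C
  refine ⟨K0, fun K M k s hK hp => ?_⟩
  obtain ⟨hK1, h40, -, -, hsk, hKk, hk1, hM, hs20, hM1⟩ := hK0 K M k s hK hp
  have hs0 : (0 : ℝ) < s := by linarith
  have hs0' : 0 < s := by exact_mod_cast hs0
  have hM0 : (0 : ℝ) < M := by exact_mod_cast hM1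
  have h40R : (40 : ℝ) * s ≤ K := by exact_mod_cast h40
  set ε : ℝ := (k : ℝ) ^ (-(c / 3)) with hε
  have hε0 : 0 < ε := Real.rpow_pos_of_pos (by linarith) _
  have hε1 : ε ≤ 1 := by
    rw [hε]
    exact Real.rpow_le_one_of_one_le_of_nonpos hk1 (by linarith)
  set b : Fin 40 → ℝ := fun g => ((K : ℝ) - 40 * s) / (M : ℝ) ^ (g : ℕ) with hb
  have hb0 : ∀ g, 0 ≤ b g := fun g => div_nonneg (by linarith) (by positivity)
  set m : Fin 40 → ℕ := fun g => ⌈(b g + s / 2) / M⌉₊ with hm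
  have hm1 : ∀ g, b g + s / 2 ≤ M * (m g : ℝ) := by
    intro g
    have := Nat.le_ceil ((b g + s / 2) / M)
    rw [div_le_iff₀ hM0] at this
    rw [mul_comm]
    exact this
  have hm2 : ∀ g, M * (m g : ℝ) ≤ b g + s / 2 + M := by
    intro g
    have h1 : 0 ≤ (b g + s / 2) / M := div_nonneg (by linarith [hb0 g]) hM0.le
    have := (Nat.ceil_lt_add_one h1).le
    have h2 : (m g : ℝ) ≤ (b g + s / 2) / M + 1 := this
    have h3 := mul_le_mul_of_nonneg_left h2 hM0.le
    have h4 : (M : ℝ) * ((b g + s / 2) / M + 1) = b g + s / 2 + M := by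
      field_simp
    rw [h4] at h3
    exact h3
  set h1 : Fin 40 → ℝ := fun g => (M * (m g : ℝ) - ε - b g) / s with hh1
  have hh1s : ∀ g, h1 g * s = M * (m g : ℝ) - ε - b g := by
    intro g
    rw [hh1]
    field_simp
  refine ⟨m, h1, fun g => h1 g * s + if g = 0 then ((K : ℝ) - 40 * s) else 0, ?_, ?_, ?_, ?_, ?_,
    ?_⟩
  · intro g
    rw [hh1, le_div_iff₀ hs0]
    linarith [hm1 g]
  · intro g
    rw [hh1, div_le_iff₀ hs0]
    linarith [hm2 g]
  · show h1 0 * s + (if (0 : Fin 40) = 0 then ((K : ℝ) - 40 * s) else 0) = _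
    rw [if_pos rfl, hh1s]
    have : b 0 = (K : ℝ) - 40 * s := by
      rw [hb]
      simp
    rw [this]
    ring
  · intro g hg
    show h1 g * s + (if g = 0 then ((K : ℝ) - 40 * s) else 0) = _
    rw [if_neg hg, hh1s, add_zero]
  · intro g
    exact sum_hg hs0' h40 g (h1 g)
  · intro g
    refine Eq.trans (congrArg Finset.card ?_) (card_some hs0' h40 g)
    ext t
    rw [Finset.mem_filter, Finset.mem_filter]
    exact Iff.rfl

end Pool.Agent.C4N.H37
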